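import Mathlib

/-!
# A large value of a quadratic form on the section of the cube by a subspace

Let `e` be an orthonormal basis of a Euclidean space `V`, `E` a subspace and `b` a symmetric bilinear
form.  Then some point `y` of `E` in the cube `|⟪e j, y⟫| ≤ 1` satisfies `b y y ≥ tr (b · P_E)`.
-/

open scoped RealInnerProductSpace
open Module

namespace Pool.Agent.MP4da8b1

variable {V : Type*} [NormedAddCommGroup V] [InnerProductSpace ℝ V] [FiniteDimensional ℝ V]
variable {J : Type*} [Fintype J]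

/-- The trace of the bilinear form `b` over the subspace `E`. -/
noncomputable def tau (e : OrthonormalBasis J ℝ V) (b : V →ₗ[ℝ] V →ₗ[ℝ] ℝ)
    (E : Submodule ℝ V) : ℝ :=
  ∑ j, b (E.starProjection (e j)) (e j)

lemma starProjection_inf (E : Submodule ℝ V) (d : V) (hd : d ∈ E) (hd1 : ‖d‖ = 1) (x : V) :
    (E ⊓ (ℝ ∙ d)ᗮ).starProjection x = E.starProjection x - ⟪d, x⟫ • d := by
  have hPd : ⟪d, E.starProjection x⟫ = ⟪d, x⟫ := by
    rw [← Submodule.inner_starProjection_left_eq_right,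
      (Submodule.starProjection_eq_self_iff).2 hd]
  have hdd : ⟪d, d⟫ = (1 : ℝ) := by rw [real_inner_self_eq_norm_sq, hd1]; norm_num
  apply Submodule.eq_starProjection_of_mem_of_inner_eq_zero
  · refine Submodule.mem_inf.2 ⟨E.sub_mem (Submodule.starProjection_apply_mem _ _)
      (E.smul_mem _ hd), ?_⟩
    rw [Submodule.mem_orthogonal_singleton_iff_inner_right, inner_sub_right, inner_smul_right, hPd,
      hdd]
    ring
  · intro w hw
    obtain ⟨hwE, hwd⟩ := Submodule.mem_inf.1 hw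
    rw [Submodule.mem_orthogonal_singleton_iff_inner_right] at hwd
    have h1 := Submodule.starProjection_inner_eq_zero (K := E) x w hwE
    have : x - (E.starProjection x - ⟪d, x⟫ • d) = (x - E.starProjection x) + ⟪d, x⟫ • d := by
      abel
    rw [this, inner_add_left, h1, inner_smul_left, hwd]
    simp

lemma tau_split (e : OrthonormalBasis J ℝ V) (b : V →ₗ[ℝ] V →ₗ[ℝ] ℝ)
    (E : Submodule ℝ V) (d : V) (hd : d ∈ E) (hd1 : ‖d‖ = 1) :
    tau e b E = tau e b (E ⊓ (ℝ ∙ d)ᗮ) + b d d := by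
  have h : b d d = ∑ j, b (⟪d, e j⟫ • d) (e j) := by
    have h1 : b d d = b d (∑ j, ⟪e j, d⟫ • e j) := by rw [e.sum_repr' d]
    rw [h1, map_sum]
    refine Finset.sum_congr rfl fun j _ => ?_
    rw [map_smul, map_smul, LinearMap.smul_apply, real_inner_comm]
  rw [h, tau, tau, ← Finset.sum_add_distrib]
  refine Finset.sum_congr rfl fun j _ => ?_
  rw [starProjection_inf E d hd hd1]
  simp

lemma tau_inner (e : OrthonormalBasis J ℝ V) (E : Submodule ℝ V) :
    ∑ j, ⟪E.starProjection (e j), e j⟫ = (finrank ℝ E : ℝ) := by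
  have h1 : LinearMap.trace ℝ V (E.starProjection : V →ₗ[ℝ] V) = (finrank ℝ E : ℝ) := by
    apply LinearMap.IsProj.trace
    constructor
    · intro x
      exact Submodule.starProjection_apply_mem _ _
    · intro x hx
      exact (Submodule.starProjection_eq_self_iff).2 hx
  rw [← h1, LinearMap.trace_eq_sum_inner _ e]
  refine Finset.sum_congr rfl fun j _ => ?_
  rw [real_inner_comm]
  rfl

/-- Fewer than `finrank E` coordinates of modulus one leave a direction of `E` in which one can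
move both ways inside the cube. -/
lemma exists_direction (e : OrthonormalBasis J ℝ V) (E : Submodule ℝ V) (y : V)
    (hy : ∀ j, |⟪e j, y⟫| ≤ 1) (hlt : ‖y‖ ^ 2 < (finrank ℝ E : ℝ)) :
    ∃ d ∈ E, ‖d‖ = 1 ∧ ∃ t : ℝ, 0 < t ∧ (∀ j, |⟪e j, y + t • d⟫| ≤ 1) ∧
      (∀ j, |⟪e j, y - t • d⟫| ≤ 1) := by
  classical
  set S : Finset J := Finset.univ.filter fun j => |⟪e j, y⟫| = 1 with hS
  have hcard : (S.card : ℝ) ≤ ‖y‖ ^ 2 := by
    have h1 : ∑ j, ‖⟪e j, y⟫‖ ^ 2 = ‖y‖ ^ 2 := e.sum_sq_norm_inner_right y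
    rw [← h1]
    calc (S.card : ℝ) = ∑ j ∈ S, (1 : ℝ) := by simp
      _ = ∑ j ∈ S, ‖⟪e j, y⟫‖ ^ 2 := by
          refine Finset.sum_congr rfl fun j hj => ?_
          have : |⟪e j, y⟫| = 1 := (Finset.mem_filter.1 hj).2
          rw [Real.norm_eq_abs, this]; norm_num
      _ ≤ ∑ j, ‖⟪e j, y⟫‖ ^ 2 :=
          Finset.sum_le_univ_sum_of_nonneg fun j => sq_nonneg _
  have hcard' : S.card < finrank ℝ E := by
    exact_mod_cast lt_of_le_of_lt hcard hlt
  -- the evaluation map on the saturated coordinates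
  let L : E →ₗ[ℝ] (S → ℝ) :=
    LinearMap.pi fun j => ((innerₛₗ ℝ (e (j : J))).comp E.subtype)
  have hker : LinearMap.ker L ≠ ⊥ := by
    apply LinearMap.ker_ne_bot_of_finrank_lt
    simpa using hcard'
  obtain ⟨d0, hd0, hd0ne⟩ := (Submodule.ne_bot_iff _).1 hker
  have hd0' : (d0 : V) ≠ 0 := by simpa using hd0ne
  have hn : ‖(d0 : V)‖ ≠ 0 := norm_ne_zero_iff.2 hd0'
  have hzero : ∀ j ∈ S, ⟪e j, (d0 : V)⟫ = 0 := by
    intro j hj
    have := congrFun (LinearMap.mem_ker.1 hd0) ⟨j, hj⟩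
    simpa [L] using this
  set d : V := (‖(d0 : V)‖)⁻¹ • (d0 : V) with hd
  have hdE : d ∈ E := E.smul_mem _ d0.2
  have hdn : ‖d‖ = 1 := by
    rw [hd, norm_smul, norm_inv, norm_norm, inv_mul_cancel₀ hn]
  have hdz : ∀ j ∈ S, ⟪e j, d⟫ = 0 := by
    intro j hj
    rw [hd, inner_smul_right, hzero j hj, mul_zero]
  refine ⟨d, hdE, hdn, ?_⟩
  -- for every coordinate, small moves stay inside
  have hev : ∀ j, ∀ᶠ t : ℝ in nhds 0, |⟪e j, y + t • d⟫| ≤ 1 ∧ |⟪e j, y - t • d⟫| ≤ 1 := by
    intro j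
    by_cases hj : j ∈ S
    · refine Filter.Eventually.of_forall fun t => ?_
      rw [inner_add_right, inner_sub_right, inner_smul_right, hdz j hj]
      simpa using hy j
    · have hlt1 : |⟪e j, y⟫| < 1 := by
        refine lt_of_le_of_ne (hy j) fun h => hj ?_
        exact Finset.mem_filter.2 ⟨Finset.mem_univ _, h⟩
      have hc1 : Continuous fun t : ℝ => |⟪e j, y + t • d⟫| := by fun_prop
      have hc2 : Continuous fun t : ℝ => |⟪e j, y - t • d⟫| := by fun_prop
      have h1 : ∀ᶠ t : ℝ in nhds 0, |⟪e j, y + t • d⟫| < 1 := by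
        apply (hc1.tendsto 0).eventually_lt_const
        simpa using hlt1
      have h2 : ∀ᶠ t : ℝ in nhds 0, |⟪e j, y - t • d⟫| < 1 := by
        apply (hc2.tendsto 0).eventually_lt_const
        simpa using hlt1
      filter_upwards [h1, h2] with t ht1 ht2
      exact ⟨ht1.le, ht2.le⟩
  have hall : ∀ᶠ t : ℝ in nhds 0, ∀ j, |⟪e j, y + t • d⟫| ≤ 1 ∧ |⟪e j, y - t • d⟫| ≤ 1 :=
    Filter.eventually_all.2 hev
  have hall' : ∀ᶠ t : ℝ in nhdsWithin 0 (Set.Ioi 0),
      ∀ j, |⟪e j, y + t • d⟫| ≤ 1 ∧ |⟪e j, y - t • d⟫| ≤ 1 := hall.filter_mono nhdsWithin_le_nhds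
  obtain ⟨t, ht1, ht2⟩ := (hall'.and self_mem_nhdsWithin).exists
  exact ⟨t, ht2, fun j => (ht1 j).1, fun j => (ht1 j).2⟩

lemma finrank_inf (E : Submodule ℝ V) (d : V) (hd : d ∈ E) (hd1 : ‖d‖ = 1) :
    finrank ℝ (E ⊓ (ℝ ∙ d)ᗮ : Submodule ℝ V) + 1 = finrank ℝ E := by
  have h := Submodule.finrank_add_inf_finrank_orthogonal (K₁ := (ℝ ∙ d)) (K₂ := E)
    ((Submodule.span_singleton_le_iff_mem _ _).2 hd)
  have hne : d ≠ 0 := by
    rintro rfl
    simp at hd1
  rw [finrank_span_singleton hne] at h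
  rw [inf_comm, ← h]
  ring

/-- **The main lemma.** -/
theorem exists_mem_cube (e : OrthonormalBasis J ℝ V) : ∀ (m : ℕ) (E : Submodule ℝ V),
    finrank ℝ E = m → ∀ b : V →ₗ[ℝ] V →ₗ[ℝ] ℝ, (∀ x y, b x y = b y x) →
    ∃ y ∈ E, (∀ j, |⟪e j, y⟫| ≤ 1) ∧ tau e b E ≤ b y y := by
  intro m
  induction m with
  | zero =>
    intro E hE b _
    refine ⟨0, E.zero_mem, by simp, ?_⟩
    have hbot : E = ⊥ := Submodule.finrank_eq_zero.1 hE
    subst hbot
    simp [tau]
  | succ m ih =>
    intro E hE b hb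
    -- the compact section of the cube
    set K : Set V := {y | y ∈ E ∧ ∀ j, |⟪e j, y⟫| ≤ 1} with hK
    have hKclosed : IsClosed K := by
      have h1 : IsClosed (E : Set V) := Submodule.closed_of_finiteDimensional E
      have h2 : IsClosed {y : V | ∀ j, |⟪e j, y⟫| ≤ 1} := by
        rw [Set.ofPred_forall]
        exact isClosed_iInter fun j => isClosed_le (by fun_prop) continuous_const
      exact h1.inter h2
    have hKbdd : Bornology.IsBounded K := by
      refine (Metric.isBounded_closedBall (x := (0 : V)) (r := (Fintype.card J : ℝ) + 1)).subset ?_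
      rintro y ⟨_, hy⟩
      rw [mem_closedBall_zero_iff]
      have h1 : ∑ j, ‖⟪e j, y⟫‖ ^ 2 = ‖y‖ ^ 2 := e.sum_sq_norm_inner_right y
      have h2 : ‖y‖ ^ 2 ≤ (Fintype.card J : ℝ) := by
        rw [← h1]
        calc ∑ j, ‖⟪e j, y⟫‖ ^ 2 ≤ ∑ _j : J, (1 : ℝ) := by
              refine Finset.sum_le_sum fun j _ => ?_
              rw [Real.norm_eq_abs]
              exact pow_le_one₀ (abs_nonneg _) (hy j)
          _ = (Fintype.card J : ℝ) := by simp
      have h3 : (0 : ℝ) ≤ Fintype.card J := Nat.cast_nonneg _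
      nlinarith [norm_nonneg y]
    have hKc : IsCompact K := Metric.isCompact_of_isClosed_isBounded hKclosed hKbdd
    have hK0 : (0 : V) ∈ K := ⟨E.zero_mem, by simp⟩
    have hcont : ∀ s : ℝ, Continuous fun y : V => b y y - s * ‖y‖ ^ 2 := by
      intro s
      have hb' : Continuous fun y : V => b y y := by
        have h1 : Continuous fun p : V × V => b p.1 p.2 := by
          have : (fun p : V × V => b p.1 p.2) = fun p : V × V =>
              (LinearMap.toContinuousLinearMap (LinearMap.toContinuousLinearMap.toLinearMap ∘ₗ b)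
                p.1) p.2 := by
            rfl
          rw [this]
          fun_prop
        exact h1.comp (continuous_id.prodMk continuous_id)
      exact hb'.sub (continuous_const.mul (continuous_norm.pow 2))
    have hmax : ∀ s : ℝ, ∃ y ∈ K, ∀ z ∈ K, b z z - s * ‖z‖ ^ 2 ≤ b y y - s * ‖y‖ ^ 2 := by
      intro s
      obtain ⟨y, hy, hmax⟩ := hKc.exists_isMaxOn ⟨0, hK0⟩ (hcont s).continuousOn
      exact ⟨y, hy, fun z hz => hmax hz⟩
    -- Claim A
    have claimA : ∀ s : ℝ, ∀ y ∈ K, (∀ z ∈ K, b z z - s * ‖z‖ ^ 2 ≤ b y y - s * ‖y‖ ^ 2) →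
        ‖y‖ ^ 2 < (m + 1 : ℕ) → tau e b E - s * (m + 1 : ℕ) ≤ b y y - s * ‖y‖ ^ 2 := by
      intro s y hyK hym hlt
      obtain ⟨d, hdE, hd1, t, ht, hp, hmn⟩ := exists_direction e E y hyK.2 (by rw [hE]; exact hlt)
      have hpK : y + t • d ∈ K := ⟨E.add_mem hyK.1 (E.smul_mem _ hdE), hp⟩
      have hmK : y - t • d ∈ K := ⟨E.sub_mem hyK.1 (E.smul_mem _ hdE), hmn⟩
      have h1 := hym _ hpK
      have h2 := hym _ hmK
      have hdd : ⟪d, d⟫ = (1 : ℝ) := by rw [real_inner_self_eq_norm_sq, hd1]; norm_num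
      have hbd : b d d - s ≤ 0 := by
        have e1 : b (y + t • d) (y + t • d) + b (y - t • d) (y - t • d)
            = 2 * b y y + 2 * t ^ 2 * b d d := by
          simp only [map_add, map_sub, map_smul, LinearMap.add_apply, LinearMap.sub_apply,
            LinearMap.smul_apply, smul_eq_mul]
          ring
        have e2 : ‖y + t • d‖ ^ 2 + ‖y - t • d‖ ^ 2 = 2 * ‖y‖ ^ 2 + 2 * t ^ 2 := by
          have := parallelogram_law_with_norm ℝ y (t • d)
          have h3 : ‖t • d‖ = t := by rw [norm_smul, hd1, Real.norm_eq_abs, abs_of_pos ht, mul_one]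
          rw [h3] at this
          nlinarith [this]
        have ht2 : 0 < t ^ 2 := by positivity
        have e3 : s * (‖y + t • d‖ ^ 2 + ‖y - t • d‖ ^ 2) = s * (2 * ‖y‖ ^ 2 + 2 * t ^ 2) := by
          rw [e2]
        have h4 : t ^ 2 * (b d d - s) ≤ 0 := by
          linarith [h1, h2, e1, e3]
        by_contra hcon
        push Not at hcon
        nlinarith [mul_pos ht2 hcon]
      set b' : V →ₗ[ℝ] V →ₗ[ℝ] ℝ := b - s • innerₗ V with hb'
      have hb's : ∀ x y, b' x y = b' y x := by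
        intro x y
        simp [hb', hb x y, real_inner_comm]
      have hfr : finrank ℝ (E ⊓ (ℝ ∙ d)ᗮ : Submodule ℝ V) = m := by
        have := finrank_inf E d hdE hd1
        omega
      obtain ⟨y', hy'E, hy'c, hy'⟩ := ih _ hfr b' hb's
      have hy'K : y' ∈ K := ⟨(Submodule.mem_inf.1 hy'E).1, hy'c⟩
      have h5 := hym _ hy'K
      have h6 := tau_split e b' E d hdE hd1
      have h7 : b' d d = b d d - s := by
        simp [hb', hd1]
      have h8 : b' y' y' = b y' y' - s * ‖y'‖ ^ 2 := by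
        simp [hb']
      have h9 : tau e b' E = tau e b E - s * (m + 1 : ℕ) := by
        have h10 := tau_inner e E
        rw [hE] at h10
        rw [← h10, tau, tau, Finset.mul_sum, ← Finset.sum_sub_distrib]
        refine Finset.sum_congr rfl fun j _ => ?_
        simp [hb']
      rw [← h9, h6, h7]
      linarith
    -- Claim B
    obtain ⟨y0, hy0K, hy0⟩ := hmax 0
    refine ⟨y0, hy0K.1, hy0K.2, ?_⟩
    by_contra hcon
    push Not at hcon
    set M : ℝ := b y0 y0 with hM
    set T : ℝ := tau e b E with hT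
    have hm1 : (0 : ℝ) < (m + 1 : ℕ) := by positivity
    set δ : ℝ := (T - M) / (2 * (m + 1 : ℕ)) with hδ
    have hδpos : 0 < δ := by
      apply div_pos (by linarith) (by positivity)
    have hδm : δ * (m + 1 : ℕ) < T - M := by
      have : δ * (m + 1 : ℕ) = (T - M) / 2 := by
        rw [hδ]; field_simp
      rw [this]; linarith
    have key : ∀ k : ℕ, ∀ y ∈ K, b y y - (k * δ) * ‖y‖ ^ 2 + (k * δ) * (m + 1 : ℕ) ≤ M := by
      intro k
      induction k with
      | zero =>
        intro y hy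
        have := hy0 y hy
        simp only [zero_mul, sub_zero] at this
        simpa using this
      | succ k ihk =>
        obtain ⟨y1, hy1K, hy1⟩ := hmax (((k + 1 : ℕ) : ℝ) * δ)
        have hcast : (((k + 1 : ℕ) : ℝ)) = (k : ℝ) + 1 := by push_cast; ring
        have hstep : ∀ y ∈ K, b y y - (((k + 1 : ℕ) : ℝ) * δ) * ‖y‖ ^ 2 +
            (((k + 1 : ℕ) : ℝ) * δ) * (m + 1 : ℕ) < T := by
          intro y hy
          have h1 := ihk y hy
          rw [hcast]
          nlinarith [mul_nonneg hδpos.le (sq_nonneg ‖y‖)]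
        have hge : ((m + 1 : ℕ) : ℝ) ≤ ‖y1‖ ^ 2 := by
          by_contra hlt
          push Not at hlt
          have h1 := claimA _ y1 hy1K hy1 hlt
          have h2 := hstep y1 hy1K
          linarith
        intro y hy
        have h1 := hy1 y hy
        have h2 : b y1 y1 ≤ M := by
          have := hy0 y1 hy1K
          simpa using this
        have h3 : 0 ≤ (((k + 1 : ℕ) : ℝ) * δ) := by positivity
        nlinarith [mul_le_mul_of_nonneg_left hge h3]
    obtain ⟨k, hk⟩ := exists_nat_gt (M / (δ * (m + 1 : ℕ)))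
    have h1 := key k 0 hK0
    have h2 : M < k * (δ * (m + 1 : ℕ)) := by
      rwa [div_lt_iff₀ (by positivity)] at hk
    simp only [map_zero, norm_zero] at h1
    nlinarith

end Pool.Agent.MP4da8b1
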