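import Pool.Agent.Work.MP_4da8b1_gt_28.Signs

/-!
# Sums of unit vectors from `n + 1` balanced families
-/

open scoped RealInnerProductSpace
open Module

namespace Pool.Agent.MP4da8b1

variable {W : Type*} [NormedAddCommGroup W] [InnerProductSpace ℝ W]

/-- The inequality that remains after the signs have been chosen. -/
lemma final_ineq {I : Type*} [Fintype I] (α Y : I → ℝ) (Y0 m : ℝ) (hα : ∀ i, 0 ≤ α i)
    (hY : ∀ i, 0 ≤ Y i) (hY1 : ∀ i, Y i ≤ 1) (hY0 : 0 ≤ Y0) (hY01 : Y0 ≤ 1)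
    (hsum : 2 ≤ Y0 + ∑ i, Y i) (hm : ∑ i, α i ≤ m)
    (hcase : (∀ i, α i ≤ 1 / 2) ∨ ∑ i, α i ≤ 1) :
    (Fintype.card I : ℝ) + 1 ≤ (1 + Y0) * m + ∑ i, (1 + Y i) * (1 - α i) := by
  have hexp : ∑ i, (1 + Y i) * (1 - α i) =
      (Fintype.card I : ℝ) - ∑ i, α i + ∑ i, Y i * (1 - α i) := by
    rw [show (Fintype.card I : ℝ) = ∑ _i : I, (1 : ℝ) by simp, ← Finset.sum_sub_distrib,
      ← Finset.sum_add_distrib]
    exact Finset.sum_congr rfl fun i _ => by ring
  have hsa0 : 0 ≤ ∑ i, α i := Finset.sum_nonneg fun i _ => hα i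
  have hsmall : ∑ i, α i ≤ 1 →
      (Fintype.card I : ℝ) + 1 ≤ (1 + Y0) * m + ∑ i, (1 + Y i) * (1 - α i) := by
    intro h1
    have h2 : ∑ i, Y i * (1 - α i) = ∑ i, Y i - ∑ i, Y i * α i := by
      rw [← Finset.sum_sub_distrib]
      exact Finset.sum_congr rfl fun i _ => by ring
    have h3 : ∑ i, Y i * α i ≤ ∑ i, α i :=
      Finset.sum_le_sum fun i _ => by nlinarith [hY1 i, hα i]
    rw [hexp, h2]
    nlinarith [mul_nonneg hY0 (sub_nonneg.2 hm), mul_nonneg (sub_nonneg.2 hY01)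
      (sub_nonneg.2 h1)]
  rcases hcase with hhalf | hs
  · rcases le_or_gt (1 / 2) m with hm2 | hm2
    · have h4 : (1 / 2) * ∑ i, Y i ≤ ∑ i, Y i * (1 - α i) := by
        rw [Finset.mul_sum]
        exact Finset.sum_le_sum fun i _ => by nlinarith [hY i, hhalf i]
      rw [hexp]
      nlinarith [mul_nonneg hY0 (sub_nonneg.2 hm2)]
    · exact hsmall (by linarith)
  · exact hsmall hs

/-- A selection of one segment in each of `n + 1` families gives a long sum. -/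
lemma exists_long_sum [FiniteDimensional ℝ W] {I : Type*} [Fintype I]
    (hI : Fintype.card I = finrank ℝ W + 1) (a δ : I → W) (c : W)
    (hunit : ∀ i, ‖a i‖ ^ 2 + ‖δ i‖ ^ 2 = 1)
    (hm : ∑ i, ‖a i‖ ^ 2 ≤ ‖∑ i, a i - c‖ ^ 2)
    (hcase : (∀ i, ‖a i‖ ^ 2 ≤ 1 / 2) ∨ ∑ i, ‖a i‖ ^ 2 ≤ 1) :
    ∃ ε : I → ℝ, (∀ i, ε i = 1 ∨ ε i = -1) ∧
      (finrank ℝ W : ℝ) + 2 ≤ ‖∑ i, (a i + ε i • δ i) - c‖ ^ 2 := by
  let z : Option I → W := fun o => o.elim (∑ i, a i - c) δ
  obtain ⟨Y, hY, hY1, hYsum, ε, hε, hbound⟩ := exists_signs z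
  have hcard : (Fintype.card (Option I) : ℝ) - finrank ℝ W = 2 := by
    rw [Fintype.card_option, hI]; push_cast; ring
  rw [hcard, Fintype.sum_option] at hYsum
  rw [Fintype.sum_option, Fintype.sum_option] at hbound
  have hz0 : z none = ∑ i, a i - c := rfl
  have hzi : ∀ i, z (some i) = δ i := fun i => rfl
  simp only [hz0, hzi] at hbound
  have hδ : ∀ i, ‖δ i‖ ^ 2 = 1 - ‖a i‖ ^ 2 := fun i => by linarith [hunit i]
  have hfin := final_ineq (fun i => ‖a i‖ ^ 2) (fun i => Y (some i)) (Y none)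
    (‖∑ i, a i - c‖ ^ 2) (fun i => sq_nonneg _)
    (fun i => hY _) (fun i => hY1 _) (hY _) (hY1 _) hYsum hm hcase
  have hcard2 : (Fintype.card I : ℝ) = finrank ℝ W + 1 := by exact_mod_cast hI
  rw [hcard2] at hfin
  simp only [hδ] at hbound
  have hge : (finrank ℝ W : ℝ) + 2 ≤
      ‖ε none • (∑ i, a i - c) + ∑ i, ε (some i) • δ i‖ ^ 2 := by
    refine le_trans ?_ hbound
    linarith
  rcases hε none with h | h
  · refine ⟨fun i => ε (some i), fun i => hε _, ?_⟩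
    have heq : ∑ i, (a i + ε (some i) • δ i) - c =
        ε none • (∑ i, a i - c) + ∑ i, ε (some i) • δ i := by
      rw [h, one_smul, Finset.sum_add_distrib]; abel
    rw [heq]; exact hge
  · refine ⟨fun i => -ε (some i), fun i => ?_, ?_⟩
    · rcases hε (some i) with h' | h' <;> simp [h']
    · have heq : ∑ i, (a i + (-ε (some i)) • δ i) - c =
          -(ε none • (∑ i, a i - c) + ∑ i, ε (some i) • δ i) := by
        rw [h, Finset.sum_add_distrib]
        simp only [neg_smul, one_smul, Finset.sum_neg_distrib]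
        abel
      rw [heq, norm_neg]; exact hge

/-- In a balanced family of unit vectors some two distinct members have a sum that makes a
non-obtuse angle with a given vector. -/
lemma exists_pair (U : Finset W) (lam : W → ℝ) (hcard : 2 ≤ U.card)
    (hunit : ∀ u ∈ U, ‖u‖ = 1) (hpos : ∀ u ∈ U, 0 < lam u) (hsum : ∑ u ∈ U, lam u • u = 0)
    (A : W) : ∃ u ∈ U, ∃ v ∈ U, u ≠ v ∧ 0 ≤ ⟪u + v, A⟫ := by
  classical
  by_contra hcon
  push Not at hcon
  have hne : U.Nonempty := Finset.card_pos.1 (by omega)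
  obtain ⟨w, hw, hmax⟩ := U.exists_max_image (fun u => ⟪u, A⟫) hne
  set x : ℝ := ⟪w, A⟫ with hx
  have hlin : ∑ u ∈ U, lam u * ⟪u, A⟫ = 0 := by
    have : ⟪∑ u ∈ U, lam u • u, A⟫ = (0 : ℝ) := by rw [hsum, inner_zero_left]
    rw [sum_inner] at this
    simpa [real_inner_smul_left] using this
  have hlampos : 0 < ∑ u ∈ U, lam u := Finset.sum_pos hpos hne
  have hx0 : 0 ≤ x := by
    by_contra hlt
    push Not at hlt
    have h1 : ∑ u ∈ U, lam u * ⟪u, A⟫ ≤ (∑ u ∈ U, lam u) * x := by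
      rw [Finset.sum_mul]
      exact Finset.sum_le_sum fun u hu => mul_le_mul_of_nonneg_left (hmax u hu) (hpos u hu).le
    nlinarith
  have herase : (U.erase w).Nonempty := by
    rw [← Finset.card_pos, Finset.card_erase_of_mem hw]; omega
  have h2 : ∑ u ∈ U.erase w, lam u * ⟪u, A⟫ < -x * ∑ u ∈ U.erase w, lam u := by
    rw [Finset.mul_sum]
    refine Finset.sum_lt_sum_of_nonempty herase fun u hu => ?_
    have hu' := Finset.mem_of_mem_erase hu
    have h3 := hcon w hw u hu' (Finset.ne_of_mem_erase hu).symm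
    rw [inner_add_left] at h3
    have h4 : ⟪u, A⟫ < -x := by linarith
    calc lam u * ⟪u, A⟫ < lam u * (-x) := mul_lt_mul_of_pos_left h4 (hpos u hu')
      _ = -x * lam u := by ring
  have h5 : lam w ≤ ∑ u ∈ U.erase w, lam u := by
    have h6 : lam w • w = -∑ u ∈ U.erase w, lam u • u := by
      rw [eq_neg_iff_add_eq_zero, Finset.add_sum_erase U (fun u => lam u • u) hw, hsum]
    have h7 : ‖lam w • w‖ = lam w := by
      rw [norm_smul, hunit w hw, mul_one, Real.norm_eq_abs, abs_of_pos (hpos w hw)]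
    rw [← h7, h6, norm_neg]
    refine (norm_sum_le _ _).trans (Finset.sum_le_sum fun u hu => ?_)
    have hu' := Finset.mem_of_mem_erase hu
    rw [norm_smul, hunit u hu', mul_one, Real.norm_eq_abs, abs_of_pos (hpos u hu')]
  have h8 := Finset.add_sum_erase U (fun u => lam u * ⟪u, A⟫) hw
  rw [hlin] at h8
  have h9 : 0 < lam w := hpos w hw
  nlinarith [mul_nonneg hx0 (sub_nonneg.2 h5)]

/-- Choosing the segments one after the other. -/
lemma exists_selection {I : Type*} [Fintype I] (G : I → W → W → Prop) (c : W)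
    (hG : ∀ i A, ∃ a δ, G i a δ ∧ 0 ≤ ⟪a, A⟫) :
    ∃ a δ : I → W, (∀ i, G i (a i) (δ i)) ∧ ∑ i, ‖a i‖ ^ 2 ≤ ‖∑ i, a i - c‖ ^ 2 := by
  classical
  have key : ∀ s : Finset I, ∃ a δ : I → W, (∀ i, G i (a i) (δ i)) ∧
      ∑ i ∈ s, ‖a i‖ ^ 2 ≤ ‖∑ i ∈ s, a i - c‖ ^ 2 := by
    intro s
    induction s using Finset.induction_on with
    | empty =>
      choose a δ hG' _ using fun i => hG i 0
      exact ⟨a, δ, hG', by simp⟩
    | insert j s hj ih =>
      obtain ⟨a, δ, h1, h2⟩ := ih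
      obtain ⟨a', δ', h3, h4⟩ := hG j (∑ i ∈ s, a i - c)
      refine ⟨Function.update a j a', Function.update δ j δ', ?_, ?_⟩
      · intro i
        by_cases hij : i = j
        · subst hij
          simpa using h3
        · rw [Function.update_of_ne hij, Function.update_of_ne hij]
          exact h1 i
      · rw [Finset.sum_insert hj, Finset.sum_insert hj, Function.update_self]
        have e1 : ∑ i ∈ s, ‖Function.update a j a' i‖ ^ 2 = ∑ i ∈ s, ‖a i‖ ^ 2 := by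
          refine Finset.sum_congr rfl fun i hi => ?_
          rw [Function.update_of_ne (by rintro rfl; exact hj hi)]
        have e2 : ∑ i ∈ s, Function.update a j a' i = ∑ i ∈ s, a i := by
          refine Finset.sum_congr rfl fun i hi => ?_
          rw [Function.update_of_ne (by rintro rfl; exact hj hi)]
        rw [e1, e2, add_sub_assoc, norm_add_sq_real]
        linarith
  exact key Finset.univ

/-- **The general criterion.** -/
theorem main_criterion {n : ℕ} (U : Fin (n + 1) → Finset (EuclideanSpace ℝ (Fin n)))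
    (hunit : ∀ i, ∀ u ∈ U i, ‖u‖ = 1) (τ : Fin (n + 1) → ℝ)
    (hτ : (∀ i, τ i ≤ 1 / 2) ∨ ∑ i, τ i ≤ 1)
    (hgood : ∀ i, ∀ A : EuclideanSpace ℝ (Fin n), ∃ u ∈ U i, ∃ v ∈ U i,
      ‖u + v‖ ^ 2 ≤ 4 * τ i ∧ 0 ≤ ⟪u + v, A⟫)
    (c : EuclideanSpace ℝ (Fin n)) :
    ∃ x : Fin (n + 1) → EuclideanSpace ℝ (Fin n), (∀ i, x i ∈ U i) ∧
      √((n : ℝ) + 2) ≤ ‖∑ i, x i - c‖ := by
  classical
  obtain ⟨a, δ, hG, hμ⟩ := exists_selection (I := Fin (n + 1))
    (fun i a δ => ∃ u ∈ U i, ∃ v ∈ U i, ‖u + v‖ ^ 2 ≤ 4 * τ i ∧ a = (1 / 2 : ℝ) • (u + v) ∧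
      δ = (1 / 2 : ℝ) • (u - v)) c (by
      intro i A
      obtain ⟨u, hu, v, hv, huv, h⟩ := hgood i A
      refine ⟨_, _, ⟨u, hu, v, hv, huv, rfl, rfl⟩, ?_⟩
      rw [real_inner_smul_left]
      positivity)
  have hsplit : ∀ i, a i + δ i ∈ U i ∧ a i - δ i ∈ U i := by
    intro i
    obtain ⟨u, hu, v, hv, _, ha, hd⟩ := hG i
    rw [ha, hd, ← smul_add, ← smul_sub]
    have e1 : (1 / 2 : ℝ) • (u + v + (u - v)) = u := by
      rw [show u + v + (u - v) = (2 : ℝ) • u by rw [two_smul]; abel, smul_smul]; norm_num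
    have e2 : (1 / 2 : ℝ) • (u + v - (u - v)) = v := by
      rw [show u + v - (u - v) = (2 : ℝ) • v by rw [two_smul]; abel, smul_smul]; norm_num
    rw [e1, e2]
    exact ⟨hu, hv⟩
  have hα : ∀ i, ‖a i‖ ^ 2 ≤ τ i := by
    intro i
    obtain ⟨u, hu, v, hv, huv, ha, hd⟩ := hG i
    rw [ha, norm_smul, mul_pow]
    norm_num
    linarith
  have hone : ∀ i, ‖a i‖ ^ 2 + ‖δ i‖ ^ 2 = 1 := by
    intro i
    have h1 := hunit i _ (hsplit i).1
    have h2 := hunit i _ (hsplit i).2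
    have h3 := parallelogram_law_with_norm ℝ (a i) (δ i)
    rw [h1, h2] at h3
    nlinarith
  have hcase : (∀ i, ‖a i‖ ^ 2 ≤ 1 / 2) ∨ ∑ i, ‖a i‖ ^ 2 ≤ 1 := by
    rcases hτ with h | h
    · exact Or.inl fun i => (hα i).trans (h i)
    · exact Or.inr ((Finset.sum_le_sum fun i _ => hα i).trans h)
  obtain ⟨ε, hε, hb⟩ := exists_long_sum (I := Fin (n + 1))
    (by rw [Fintype.card_fin, finrank_euclideanSpace_fin]) a δ c hone hμ hcase
  refine ⟨fun i => a i + ε i • δ i, fun i => ?_, ?_⟩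
  · show a i + ε i • δ i ∈ U i
    rcases hε i with h | h
    · rw [h, one_smul]; exact (hsplit i).1
    · rw [h, neg_one_smul, ← sub_eq_add_neg]; exact (hsplit i).2
  · rw [finrank_euclideanSpace_fin] at hb
    exact Real.sqrt_le_iff.2 ⟨norm_nonneg _, hb⟩

/-- Pairwise non-acute families. -/
theorem main_nonacute {n : ℕ} (U : Fin (n + 1) → Finset (EuclideanSpace ℝ (Fin n)))
    (hcard : ∀ i, 2 ≤ (U i).card) (hunit : ∀ i, ∀ u ∈ U i, ‖u‖ = 1)
    (hbal : ∀ i, ∃ lam : EuclideanSpace ℝ (Fin n) → ℝ,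
      (∀ u ∈ U i, 0 < lam u) ∧ ∑ u ∈ U i, lam u • u = 0)
    (hobt : ∀ i, ∀ u ∈ U i, ∀ v ∈ U i, u ≠ v → ⟪u, v⟫ ≤ 0)
    (c : EuclideanSpace ℝ (Fin n)) :
    ∃ x : Fin (n + 1) → EuclideanSpace ℝ (Fin n), (∀ i, x i ∈ U i) ∧
      √((n : ℝ) + 2) ≤ ‖∑ i, x i - c‖ := by
  refine main_criterion U hunit (fun _ => 1 / 2) (Or.inl fun _ => le_rfl) ?_ c
  intro i A
  obtain ⟨lam, hpos, hsum⟩ := hbal i
  obtain ⟨u, hu, v, hv, huv, h⟩ := exists_pair (U i) lam (hcard i) (hunit i) hpos hsum A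
  refine ⟨u, hu, v, hv, ?_, h⟩
  rw [norm_add_sq_real, hunit i u hu, hunit i v hv]
  linarith [hobt i u hu v hv huv]

/-- All but at most one family are antipodal pairs. -/
theorem main_pairs {n : ℕ} (U : Fin (n + 1) → Finset (EuclideanSpace ℝ (Fin n)))
    (hcard : ∀ i, 2 ≤ (U i).card) (hunit : ∀ i, ∀ u ∈ U i, ‖u‖ = 1)
    (hbal : ∀ i, ∃ lam : EuclideanSpace ℝ (Fin n) → ℝ,
      (∀ u ∈ U i, 0 < lam u) ∧ ∑ u ∈ U i, lam u • u = 0)
    (hpair : ∃ i₀, ∀ i, i ≠ i₀ → (U i).card = 2)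
    (c : EuclideanSpace ℝ (Fin n)) :
    ∃ x : Fin (n + 1) → EuclideanSpace ℝ (Fin n), (∀ i, x i ∈ U i) ∧
      √((n : ℝ) + 2) ≤ ‖∑ i, x i - c‖ := by
  classical
  obtain ⟨i₀, hpair⟩ := hpair
  refine main_criterion U hunit (fun i => if i = i₀ then 1 else 0) (Or.inr ?_) ?_ c
  · simp
  intro i A
  obtain ⟨lam, hpos, hsum⟩ := hbal i
  obtain ⟨u, hu, v, hv, huv, h⟩ := exists_pair (U i) lam (hcard i) (hunit i) hpos hsum A
  by_cases hi : i = i₀
  · refine ⟨u, hu, v, hv, ?_, h⟩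
    rw [if_pos hi]
    have h1 : ‖u + v‖ ≤ 2 := by
      refine (norm_add_le _ _).trans ?_
      rw [hunit i u hu, hunit i v hv]; norm_num
    nlinarith [norm_nonneg (u + v)]
  · refine ⟨u, hu, v, hv, ?_, h⟩
    rw [if_neg hi]
    have hUi : U i = {u, v} := by
      symm
      apply Finset.eq_of_subset_of_card_le
      · intro w hw
        rcases Finset.mem_insert.1 hw with rfl | hw
        · exact hu
        · rw [Finset.mem_singleton.1 hw]; exact hv
      · rw [hpair i hi, Finset.card_pair huv]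
    rw [hUi, Finset.sum_pair huv] at hsum
    have h1 : lam u • u = -(lam v • v) := eq_neg_of_add_eq_zero_left hsum
    have h2 : lam u = lam v := by
      have h3 := congrArg norm h1
      rw [norm_neg, norm_smul, norm_smul, hunit i u hu, hunit i v hv, mul_one, mul_one,
        Real.norm_eq_abs, Real.norm_eq_abs, abs_of_pos (hpos u hu),
        abs_of_pos (hpos v hv)] at h3
      exact h3
    rw [h2, ← smul_add] at hsum
    rcases smul_eq_zero.1 hsum with h3 | h3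
    · exact absurd h3 (hpos v hv).ne'
    · rw [h3]; simp

end Pool.Agent.MP4da8b1
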