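import Pool.Agent.Work.MP_4da8b1_gt_28.Cube

/-!
# Signed sums of vectors

For vectors `z j` in an `r`-dimensional Euclidean space there are numbers `Y j ∈ [0,1]` with
`∑ Y j ≥ card J - r` and signs `ε j` with `‖∑ ε j • z j‖² ≥ ∑ (1 + Y j) ‖z j‖²`.
-/

open scoped RealInnerProductSpace
open Module

namespace Pool.Agent.MP4da8b1

variable {W : Type*} [NormedAddCommGroup W] [InnerProductSpace ℝ W]
variable {J : Type*} [Fintype J]

/-- The function rounded coordinatewise. -/
noncomputable def rnd (z : J → W) (y : J → ℝ) : ℝ :=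
  ‖∑ j, y j • z j‖ ^ 2 + ∑ j, (1 - y j ^ 2) * ‖z j‖ ^ 2

lemma rnd_update [DecidableEq J] (z : J → W) (y : J → ℝ) (j : J) (t : ℝ) :
    rnd z (Function.update y j t) = ‖∑ i ∈ Finset.univ.erase j, y i • z i‖ ^ 2 +
      2 * t * ⟪∑ i ∈ Finset.univ.erase j, y i • z i, z j⟫ +
      (‖z j‖ ^ 2 + ∑ i ∈ Finset.univ.erase j, (1 - y i ^ 2) * ‖z i‖ ^ 2) := by
  have h1 : ∑ i, (Function.update y j t i) • z i =
      (∑ i ∈ Finset.univ.erase j, y i • z i) + t • z j := by
    rw [← Finset.sum_erase_add _ _ (Finset.mem_univ j)]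
    congr 1
    · refine Finset.sum_congr rfl fun i hi => ?_
      rw [Function.update_of_ne (Finset.ne_of_mem_erase hi)]
    · simp
  have h2 : ∑ i, (1 - (Function.update y j t i) ^ 2) * ‖z i‖ ^ 2 =
      (∑ i ∈ Finset.univ.erase j, (1 - y i ^ 2) * ‖z i‖ ^ 2) + (1 - t ^ 2) * ‖z j‖ ^ 2 := by
    rw [← Finset.sum_erase_add _ _ (Finset.mem_univ j)]
    congr 1
    · refine Finset.sum_congr rfl fun i hi => ?_
      rw [Function.update_of_ne (Finset.ne_of_mem_erase hi)]
    · simp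
  rw [rnd, h1, h2, norm_add_sq_real, inner_smul_right, norm_smul, mul_pow, Real.norm_eq_abs,
    sq_abs]
  ring

lemma exists_round_coord [DecidableEq J] (z : J → W) (y : J → ℝ) (j : J) (hj : |y j| ≤ 1) :
    ∃ t : ℝ, (t = 1 ∨ t = -1) ∧ rnd z y ≤ rnd z (Function.update y j t) := by
  have h0 : rnd z y = rnd z (Function.update y j (y j)) := by rw [Function.update_eq_self]
  rw [h0, rnd_update]
  obtain ⟨h1, h2⟩ := abs_le.1 hj
  rcases le_total 0 ⟪∑ i ∈ Finset.univ.erase j, y i • z i, z j⟫ with h | h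
  · refine ⟨1, Or.inl rfl, ?_⟩
    rw [rnd_update]
    nlinarith
  · refine ⟨-1, Or.inr rfl, ?_⟩
    rw [rnd_update]
    nlinarith

lemma exists_round (z : J → W) (y : J → ℝ) (hy : ∀ j, |y j| ≤ 1) :
    ∃ ε : J → ℝ, (∀ j, ε j = 1 ∨ ε j = -1) ∧ rnd z y ≤ ‖∑ j, ε j • z j‖ ^ 2 := by
  classical
  have key : ∀ s : Finset J, ∃ y' : J → ℝ, (∀ j, |y' j| ≤ 1) ∧ (∀ j ∈ s, y' j = 1 ∨ y' j = -1) ∧
      rnd z y ≤ rnd z y' := by
    intro s
    induction s using Finset.induction_on with
    | empty => exact ⟨y, hy, by simp, le_rfl⟩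
    | insert j s hj ih =>
      obtain ⟨y', h1, h2, h3⟩ := ih
      obtain ⟨t, ht, h4⟩ := exists_round_coord z y' j (h1 j)
      refine ⟨Function.update y' j t, ?_, ?_, h3.trans h4⟩
      · intro i
        by_cases hi : i = j
        · subst hi
          rw [Function.update_self]
          rcases ht with rfl | rfl <;> simp
        · rw [Function.update_of_ne hi]; exact h1 i
      · intro i hi
        by_cases hij : i = j
        · subst hij
          rw [Function.update_self]; exact ht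
        · rw [Function.update_of_ne hij]
          exact h2 i ((Finset.mem_insert.1 hi).resolve_left hij)
  obtain ⟨y', _, h2, h3⟩ := key Finset.univ
  refine ⟨y', fun j => h2 j (Finset.mem_univ _), h3.trans (le_of_eq ?_)⟩
  rw [rnd]
  have : ∑ j, (1 - y' j ^ 2) * ‖z j‖ ^ 2 = 0 := by
    refine Finset.sum_eq_zero fun j _ => ?_
    rcases h2 j (Finset.mem_univ _) with h | h <;> simp [h]
  rw [this, add_zero]

/-- **Signed sums.** -/
theorem exists_signs [FiniteDimensional ℝ W] (z : J → W) :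
    ∃ Y : J → ℝ, (∀ j, 0 ≤ Y j) ∧ (∀ j, Y j ≤ 1) ∧
      (Fintype.card J : ℝ) - finrank ℝ W ≤ ∑ j, Y j ∧
      ∃ ε : J → ℝ, (∀ j, ε j = 1 ∨ ε j = -1) ∧
        ∑ j, (1 + Y j) * ‖z j‖ ^ 2 ≤ ‖∑ j, ε j • z j‖ ^ 2 := by
  classical
  let V := EuclideanSpace ℝ J
  let e : OrthonormalBasis J ℝ V := EuclideanSpace.basisFun J ℝ
  -- the synthesis map and its adjoint
  let A : V →ₗ[ℝ] W := ∑ j, (innerₛₗ ℝ (e j)).smulRight (z j)
  have hA : ∀ y : V, A y = ∑ j, ⟪e j, y⟫ • z j := by
    intro y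
    simp [A, LinearMap.sum_apply]
  have hAe : ∀ j, A (e j) = z j := by
    intro j
    rw [hA, Finset.sum_eq_single j]
    · rw [real_inner_self_eq_norm_sq, e.norm_eq_one]; simp
    · intro i _ hij
      rw [e.inner_eq_zero hij]; simp
    · intro h; exact absurd (Finset.mem_univ _) h
  let Z : W →ₗ[ℝ] V := ∑ j, (innerₛₗ ℝ (z j)).smulRight (e j)
  have hZ : ∀ x : W, Z x = ∑ j, ⟪z j, x⟫ • e j := by
    intro x
    simp [Z, LinearMap.sum_apply]
  have hadj : ∀ (y : V) (x : W), ⟪A y, x⟫ = ⟪y, Z x⟫ := by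
    intro y x
    rw [hA, hZ, sum_inner, inner_sum]
    refine Finset.sum_congr rfl fun j _ => ?_
    rw [real_inner_smul_left, real_inner_smul_right, real_inner_comm]
    ring
  let E : Submodule ℝ V := LinearMap.range Z
  have hE : finrank ℝ E ≤ finrank ℝ W := LinearMap.finrank_range_le Z
  -- `A ∘ P_E = A`
  have hAP : ∀ y : V, A (E.starProjection y) = A y := by
    intro y
    have h1 : A (y - E.starProjection y) = 0 := by
      rw [← inner_self_eq_zero (𝕜 := ℝ), hadj]
      exact Submodule.starProjection_inner_eq_zero (K := E) y _ (LinearMap.mem_range_self Z _)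
    rw [map_sub, sub_eq_zero] at h1
    exact h1.symm
  -- the bilinear form
  let b : V →ₗ[ℝ] V →ₗ[ℝ] ℝ :=
    ((innerₗ W).comp A).compl₂ A - ∑ j, (‖z j‖ ^ 2) •
      ((innerₛₗ ℝ (e j)).smulRight (innerₛₗ ℝ (e j)))
  have hb : ∀ x y : V, b x y = ⟪A x, A y⟫ - ∑ j, ‖z j‖ ^ 2 * (⟪e j, x⟫ * ⟪e j, y⟫) := by
    intro x y
    simp [b, LinearMap.sum_apply]
  have hbs : ∀ x y, b x y = b y x := by
    intro x y
    rw [hb, hb, real_inner_comm]
    congr 1
    refine Finset.sum_congr rfl fun j _ => ?_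
    ring
  obtain ⟨y, hyE, hyc, hy⟩ := exists_mem_cube e _ E rfl b hbs
  have hP : ∀ j, ⟪e j, E.starProjection (e j)⟫ = ‖E.starProjection (e j)‖ ^ 2 := by
    intro j
    have h1 := Submodule.starProjection_inner_eq_zero (K := E) (e j) (E.starProjection (e j))
      (Submodule.starProjection_apply_mem _ _)
    rw [inner_sub_left, sub_eq_zero, real_inner_self_eq_norm_sq] at h1
    exact h1
  refine ⟨fun j => 1 - ‖E.starProjection (e j)‖ ^ 2, ?_, ?_, ?_, ?_⟩
  · intro j
    have h1 : ‖E.starProjection (e j)‖ ≤ 1 := by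
      calc ‖E.starProjection (e j)‖ ≤ ‖e j‖ := Submodule.norm_starProjection_apply_le _ _
        _ = 1 := e.norm_eq_one j
    have h2 := norm_nonneg (E.starProjection (e j))
    simp only
    nlinarith
  · intro j
    have := sq_nonneg ‖E.starProjection (e j)‖
    simp only
    linarith
  · have h1 := tau_inner e E
    have h2 : ∑ j, ‖E.starProjection (e j)‖ ^ 2 = (finrank ℝ E : ℝ) := by
      rw [← h1]
      refine Finset.sum_congr rfl fun j _ => ?_
      rw [← hP, real_inner_comm]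
    rw [Finset.sum_sub_distrib, h2]
    have h3 : (finrank ℝ E : ℝ) ≤ finrank ℝ W := by exact_mod_cast hE
    simp only [Finset.sum_const, Finset.card_univ, nsmul_eq_mul, mul_one]
    linarith
  · obtain ⟨ε, hε, h⟩ := exists_round z (fun j => ⟪e j, y⟫) hyc
    refine ⟨ε, hε, le_trans ?_ h⟩
    have h1 : tau e b E = ∑ j, (1 - ‖E.starProjection (e j)‖ ^ 2) * ‖z j‖ ^ 2 := by
      rw [tau]
      refine Finset.sum_congr rfl fun j _ => ?_
      rw [hb, hAP, hAe, real_inner_self_eq_norm_sq, Finset.sum_eq_single j]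
      · rw [hP, real_inner_self_eq_norm_sq (e j), e.norm_eq_one]
        ring
      · intro i _ hij
        rw [e.inner_eq_zero hij]; ring
      · intro h; exact absurd (Finset.mem_univ _) h
    have h2 : rnd z (fun j => ⟪e j, y⟫) = b y y + ∑ j, ‖z j‖ ^ 2 := by
      rw [rnd, hb, ← hA, real_inner_self_eq_norm_sq, sub_add, ← Finset.sum_sub_distrib,
        sub_eq_add_neg, ← Finset.sum_neg_distrib]
      congr 1
      refine Finset.sum_congr rfl fun j _ => ?_
      ring
    rw [h2]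
    have h3 : ∑ j, (1 + (1 - ‖E.starProjection (e j)‖ ^ 2)) * ‖z j‖ ^ 2 =
        tau e b E + ∑ j, ‖z j‖ ^ 2 := by
      rw [h1, ← Finset.sum_add_distrib]
      refine Finset.sum_congr rfl fun j _ => ?_
      ring
    rw [h3]
    linarith

end Pool.Agent.MP4da8b1
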